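import Pool.Agent.W2helper22.MG.Fin
import Pool.Agent.W2helper92.MG.REALM
import Pool.Agent.W2helper85.MG.SLICE
import Pool.Agent.W2helper60.MG.COPY
import Pool.Agent.W2helper63.MG.THRF
import Pool.Agent.W2helper98.MG.TEST
import Pool.Agent.W2helper22.MG.CHEB
import Pool.Agent.W2helper51.MG.AVG
import Pool.Agent.W2helper28.MG.DEC
import Pool.Agent.W2helper71.MG.BETA
import Pool.Agent.W2helper15.MG.POLY
import Pool.Agent.W2helper52.MG.NUM

/-! Project MG: everything together. -/

set_option autoImplicit false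

namespace Pool.Agent.W2helper22.MG

open Finset Filter Pool.Agent.W2helper86.LG Pool.Agent

theorem final_core (S : Type) [Fintype S] [Nonempty S] (m B M : ℕ) (hBM : B * m ≤ M)
    (G : S → Fin M → Bool) (α δ : ℝ) (hα : 0 ≤ α) (hδ : 0 < δ) (hB : 0 < B)
    (hsize : 2 * (m + 1) * (B * (2 * m + 20 * (m + 2) ^ 3) + (2 * (B + 2) + 2) * (B + 1) + 2) + 2 ≤ M)
    (hG : ∀ C : Circuit M, NoNot C → C.size ≤ M → |prob (fun s => C.eval (G s)) - prob C.eval| ≤ α)
    (C : Circuit m) (hC : C.size ≤ m) :
    |prob (fun p : S × Fin B => C.eval (fun j => G p.1 (blk m B M hBM p.2 j))) - prob C.eval| ≤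
      2 * α + (2 * (m + 1) : ℕ) / (2 * δ ^ 2 * B) + (2 * (m + 1) : ℕ) * δ :=
  core W2helper92.MG.realm W2helper85.MG.slice W2helper60.MG.copy W2helper63.MG.thrf W2helper98.MG.test
    W2helper22.MG.Cheb.cheb W2helper51.MG.avg W2helper28.MG.dec W2helper71.MG.beta
    S m B M hBM G α δ hα hδ hB hsize hG C hC

theorem final_main (α : ℕ → ℝ) (hα : ∀ m, 0 ≤ α m) (hanti : Antitone α)
    (h : Generator α (fun _ C => NoNot C)) :
    Generator (fun m => 2 * α m + 3 / (m + 1)) (fun _ _ => True) :=
  mono_to_all W2helper92.MG.realm W2helper85.MG.slice W2helper60.MG.copy W2helper63.MG.thrf W2helper98.MG.test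
    W2helper22.MG.Cheb.cheb W2helper51.MG.avg W2helper28.MG.dec W2helper71.MG.beta W2helper15.MG.poly W2helper52.MG.num α hα hanti h

theorem final_q1 (a : ℝ) (ha : 0 ≤ a) (ha2 : a < 1 / 16)
    (h : Generator (fun _ => a) (fun _ C => NoNot C)) :
    Generator (fun _ => 1 / 8) (fun _ _ => True) := by
  refine (final_main (fun _ => a) (fun _ => ha) (fun _ _ _ => le_rfl) h).mono ?_ (fun _ _ h => h)
  filter_upwards [ev_small (show 0 < 1 / 8 - 2 * a by linarith)] with m hm
  linarith

theorem final_conv (h : Generator (fun _ => 1 / 8) (fun _ _ => True)) :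
    Generator (fun _ => 1 / 8) (fun _ C => NoNot C) :=
  h.mono (Eventually.of_forall fun _ => le_rfl) (fun _ _ _ => trivial)

theorem final_iff : (∀ a : ℝ, 0 < a → Generator (fun _ => a) (fun _ C => NoNot C)) ↔
    ∀ a : ℝ, 0 < a → Generator (fun _ => a) (fun _ _ => True) := by
  constructor
  · intro h a ha
    refine (final_main (fun _ => a / 4) (fun _ => by positivity) (fun _ _ _ => le_rfl)
      (h (a / 4) (by positivity))).mono ?_ (fun _ _ h => h)
    filter_upwards [ev_small (show 0 < a / 2 by linarith)] with m hm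
    linarith
  · intro h a ha
    exact (h a ha).mono (Eventually.of_forall fun _ => le_rfl) (fun _ _ _ => trivial)

end Pool.Agent.W2helper22.MG
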