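import Pool.Agent.W2helper22.MG.Stm

/-! Project MG: assembly. -/

set_option autoImplicit false

namespace Pool.Agent.W2helper22.MG

open Finset Filter Pool.Agent.W2helper86.LG Pool.Agent.W2helper22.AL

lemma prob_nonneg {S : Type} [Fintype S] (p : S → Bool) : 0 ≤ prob p := by
  unfold prob
  positivity

lemma prob_equiv {S T : Type} [Fintype S] [Fintype T] (e : S ≃ T) (p : T → Bool) :
    prob (fun s => p (e s)) = prob p := by
  unfold prob
  rw [Fintype.card_congr e]
  congr 2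
  refine Finset.card_bij (fun s _ => e s) ?_ ?_ ?_
  · intro s hs
    simpa using hs
  · intro s _ s' _ h
    exact e.injective h
  · intro t ht
    exact ⟨e.symm t, by simpa using ht, by simp⟩

/-- the function `T_{k+1}` has a small monotone program -/
lemma mo_thr (hS : P_SLICE) (m k : ℕ) :
    Mo (20 * (m + 2) ^ 3) {fun x : Fin m → Bool => decide (k + 1 ≤ wt x)} := by
  obtain ⟨g, h1, h2⟩ := hS m k ⟨1, fun _ => Gate.const false, 0, fun i _ => trivial, by norm_num⟩
  have e : g = fun x : Fin m → Bool => decide (k + 1 ≤ wt x) := by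
    funext x
    have h3 := h2 x
    have h4 : (⟨1, fun _ => Gate.const false, 0, fun i _ => trivial, by norm_num⟩ :
        Circuit m).eval x = false := by
      unfold Circuit.eval
      rw [Circuit.val_eq _ _ (show (0 : ℕ) < 1 by norm_num)]
      rfl
    rw [h4] at h3
    simp only [Bool.false_eq_true, and_false, or_false] at h3
    rw [Bool.eq_iff_iff, h3, decide_eq_true_iff]
  rw [← e]
  have h5 : (⟨1, fun _ => Gate.const false, 0, fun i _ => trivial, by norm_num⟩ :
      Circuit m).size = 0 := by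
    unfold Circuit.size
    simp [Gate.weight]
  rw [h5] at h1
  simpa using h1

/-- the blocks -/
def blk (m B M : ℕ) (h : B * m ≤ M) (i : Fin B) (j : Fin m) : Fin M :=
  ⟨i * m + j, by
    have h1 := i.2
    have h2 := j.2
    calc (i : ℕ) * m + j < i * m + m := by omega
      _ = (i + 1) * m := by ring
      _ ≤ B * m := Nat.mul_le_mul_right _ h1
      _ ≤ M := h⟩

lemma blk_inj (m B M : ℕ) (h : B * m ≤ M) : ∀ i j i' j',
    blk m B M h i j = blk m B M h i' j' → i = i' ∧ j = j' := by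
  intro i j i' j' hh
  have h1 : (i : ℕ) * m + j = i' * m + j' := congrArg Fin.val hh
  have hj := j.2
  have hj' := j'.2
  have h2 : (i : ℕ) = i' := by
    rcases lt_trichotomy (i : ℕ) (i' : ℕ) with h3 | h3 | h3
    · have : (i + 1) * m ≤ (i' : ℕ) * m := Nat.mul_le_mul_right _ h3
      have e : ((i : ℕ) + 1) * m = i * m + m := by ring
      omega
    · exact h3
    · have : ((i' : ℕ) + 1) * m ≤ (i : ℕ) * m := Nat.mul_le_mul_right _ h3
      have e : ((i' : ℕ) + 1) * m = i' * m + m := by ring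
      omega
  refine ⟨Fin.ext h2, Fin.ext ?_⟩
  rw [h2] at h1
  omega

/-- **Blocks of a generator against monotone circuits fool all circuits.** -/
theorem core (hREALM : P_REALM) (hSLICE : P_SLICE) (hCOPY : P_COPY) (hTHRF : P_THRF)
    (hTEST : P_TEST) (hCHEB : P_CHEB) (hAVG : P_AVG) (hDEC : P_DEC) (hBETA : P_BETA)
    (S : Type) [Fintype S] [Nonempty S] (m B M : ℕ) (hBM : B * m ≤ M) (G : S → Fin M → Bool)
    (α δ : ℝ) (hα : 0 ≤ α) (hδ : 0 < δ) (hB : 0 < B)
    (hsize : 2 * (m + 1) * (B * (2 * m + 20 * (m + 2) ^ 3) + (2 * (B + 2) + 2) * (B + 1) + 2) + 2 ≤ M)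
    (hG : ∀ C : Circuit M, NoNot C → C.size ≤ M → |prob (fun s => C.eval (G s)) - prob C.eval| ≤ α)
    (C : Circuit m) (hC : C.size ≤ m) :
    |prob (fun p : S × Fin B => C.eval (fun j => G p.1 (blk m B M hBM p.2 j))) - prob C.eval| ≤
      2 * α + (2 * (m + 1) : ℕ) / (2 * δ ^ 2 * B) + (2 * (m + 1) : ℕ) * δ := by
  choose g hg1 hg2 using fun k => hSLICE m k C
  obtain ⟨F, sgn, hs1, hF, hs2⟩ := hDEC m C.eval g hg2
  have hMo : ∀ j, Mo (2 * m + 20 * (m + 2) ^ 3) {F j} := by
    intro j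
    rcases hF j with ⟨k, hk⟩ | ⟨k, hk⟩
    · rw [hk]
      exact (hg1 k).mono (by omega) (fun _ => le_rfl) (fun q hq => ⟨q.2, le_rfl, hq⟩)
    · rw [hk]
      exact (mo_thr hSLICE m k).mono (by omega) (fun _ => le_rfl) (fun q hq => ⟨q.2, le_rfl, hq⟩)
  have key : ∀ θ : Fin (2 * (m + 1)) → ℕ,
      (|prob (fun s : S => decide (∃ j, θ j ≤ cnt (blk m B M hBM) (F j) (G s))) -
        prob (fun x : Fin M → Bool => decide (∃ j, θ j ≤ cnt (blk m B M hBM) (F j) x))| ≤ α) ∧
      |prob (fun s : S => decide (∀ j, θ j ≤ cnt (blk m B M hBM) (F j) (G s))) -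
        prob (fun x : Fin M → Bool => decide (∀ j, θ j ≤ cnt (blk m B M hBM) (F j) x))| ≤ α := by
    intro θ
    obtain ⟨⟨CU, u1, u2, u3⟩, CL, l1, l2, l3⟩ := hTEST hREALM hCOPY hTHRF m B M (2 * (m + 1))
      (2 * m + 20 * (m + 2) ^ 3) (blk m B M hBM) F θ hMo
    refine ⟨?_, ?_⟩
    · have h1 := hG CU u1 (u2.trans hsize)
      have e1 : ∀ x, CU.eval x = decide (∃ j, θ j ≤ cnt (blk m B M hBM) (F j) x) := fun x => by
        rw [Bool.eq_iff_iff, u3, decide_eq_true_iff]
      have e2 : CU.eval = fun x => decide (∃ j, θ j ≤ cnt (blk m B M hBM) (F j) x) := funext e1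
      rw [e2] at h1
      exact h1
    · have h1 := hG CL l1 (l2.trans hsize)
      have e1 : ∀ x, CL.eval x = decide (∀ j, θ j ≤ cnt (blk m B M hBM) (F j) x) := fun x => by
        rw [Bool.eq_iff_iff, l3, decide_eq_true_iff]
      have e2 : CL.eval = fun x => decide (∀ j, θ j ≤ cnt (blk m B M hBM) (F j) x) := funext e1
      rw [e2] at h1
      exact h1
  have hβ := hBETA hCHEB S m B M (2 * (m + 1)) (blk m B M hBM) G F α δ (blk_inj m B M hBM) hδ hB
    (key (fun j => ⌈(prob (F j) + δ) * B⌉₊)).1 (key (fun j => ⌈(prob (F j) - δ) * B⌉₊)).2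
  exact hAVG S m B M (2 * (m + 1)) (blk m B M hBM) G F sgn C.eval _ δ hB
    (by positivity) hδ.le hs1 hs2 hβ

end Pool.Agent.W2helper22.MG
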