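import Pool.Agent.W2helper22.MG.Asm

/-! Project MG: the final statements. -/

set_option autoImplicit false

namespace Pool.Agent.W2helper22.MG

open Finset Filter Pool.Agent.W2helper86.LG Pool.Agent.W2helper22.AL

/-- Generators as in the problem, for all circuits with the property `P`, with advantage at most `α m`
for output length `m`: the seed length `d m` is computable from `1^m` in polynomial time, the output
`G m s` is computable from `(1^m, s)` in polynomial time, and for all large `m` the seed length is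
at most `c log₂ m` and less than `m`, and every circuit with at most `m` AND and OR gates which has the
property `P` has advantage at most `α m` against `G m`. -/
def Generator (α : ℕ → ℝ) (P : ∀ m, Circuit m → Prop) : Prop :=
  ∃ (d : ℕ → ℕ) (G : (m : ℕ) → (Fin (d m) → Bool) → (Fin m → Bool)),
    (∃ f : List Bool → List Bool, Pool.Agent.H38.NP.PolyTime f ∧
      ∀ m, f (List.replicate m true) = List.replicate (d m) true) ∧
    (∃ g : List Bool → List Bool, Pool.Agent.H38.NP.PolyTime g ∧ ∀ (m : ℕ) (s : Fin (d m) → Bool),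
      g (Pool.Agent.H38.NP.pair (List.replicate m true) (List.ofFn s)) = List.ofFn (G m s)) ∧
    ∃ c : ℕ, ∀ᶠ m : ℕ in atTop, d m ≤ c * Nat.log 2 m ∧ d m < m ∧
      ∀ C : Circuit m, P m C → C.size ≤ m →
        |prob (fun s => C.eval (G m s)) - prob C.eval| ≤ α m

lemma tendsto_M : Tendsto (fun m : ℕ => 2 ^ (20 * lam m)) atTop atTop := by
  rw [tendsto_atTop]
  intro b
  filter_upwards [eventually_ge_atTop b] with m hm
  refine hm.trans ?_
  have h1 : m < 2 ^ lam m := Nat.lt_pow_succ_log_self (by norm_num) m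
  exact h1.le.trans (Nat.pow_le_pow_right (by norm_num) (by omega))

theorem step (hREALM : P_REALM) (hSLICE : P_SLICE) (hCOPY : P_COPY) (hTHRF : P_THRF)
    (hTEST : P_TEST) (hCHEB : P_CHEB) (hAVG : P_AVG) (hDEC : P_DEC) (hBETA : P_BETA)
    (m B M D a : ℕ) (hBM : B * m ≤ M)
    (hsize : 2 * (m + 1) * (B * (2 * m + 20 * (m + 2) ^ 3) + (2 * (B + 2) + 2) * (B + 1) + 2) + 2 ≤ M)
    (G : (Fin D → Bool) → Fin M → Bool) (G' : (Fin (D + a) → Bool) → Fin m → Bool)
    (e : (Fin a → Bool) ≃ Fin B)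
    (hval : ∀ (s : Fin D → Bool) (u : Fin a → Bool) (j : Fin m) (h : (e u : ℕ) * m + j < M),
      G' (Fin.append s u) j = G s ⟨(e u : ℕ) * m + j, h⟩)
    (α : ℝ) (hα : 0 ≤ α) (hB6 : (m + 1) ^ 6 ≤ B)
    (hG : ∀ C : Circuit M, NoNot C → C.size ≤ M → |prob (fun s => C.eval (G s)) - prob C.eval| ≤ α)
    (C : Circuit m) (hC : C.size ≤ m) :
    |prob (fun s => C.eval (G' s)) - prob C.eval| ≤ 2 * α + 3 / (m + 1) := by
  have hm0 : (0 : ℝ) < (m : ℝ) + 1 := by positivity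
  have hB : 0 < B := lt_of_lt_of_le (by positivity) hB6
  have key := core hREALM hSLICE hCOPY hTHRF hTEST hCHEB hAVG hDEC hBETA
    (Fin D → Bool) m B M hBM G α (1 / ((m : ℝ) + 1) ^ 2) hα (by positivity) hB hsize hG C hC
  have e1 : prob (fun s => C.eval (G' s)) =
      prob (fun p : (Fin D → Bool) × Fin B =>
        C.eval (fun j => G p.1 (blk m B M hBM p.2 j))) := by
    rw [← prob_equiv ((Equiv.prodCongr (Equiv.refl _) e.symm).trans (Fin.appendEquiv D a))]
    congr 1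
    funext p
    congr 1
    funext j
    obtain ⟨s, i⟩ := p
    have h9 := hval s (e.symm i) j (by
      rw [Equiv.apply_symm_apply]
      exact (blk m B M hBM i j).2)
    simp only [Equiv.apply_symm_apply] at h9
    exact h9
  rw [← e1] at key
  refine key.trans ?_
  have hB6' : ((m : ℝ) + 1) ^ 6 ≤ (B : ℝ) := by exact_mod_cast hB6
  have hB0 : (0 : ℝ) < (B : ℝ) := by exact_mod_cast hB
  have h10 : ((2 * (m + 1) : ℕ) : ℝ) / (2 * (1 / ((m : ℝ) + 1) ^ 2) ^ 2 * (B : ℝ)) ≤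
      1 / ((m : ℝ) + 1) := by
    rw [div_le_div_iff₀ (by positivity) hm0]
    have e2 : (1 / ((m : ℝ) + 1) ^ 2) ^ 2 = 1 / ((m : ℝ) + 1) ^ 4 := by
      rw [one_div, one_div, inv_pow, ← pow_mul]
    rw [e2]
    have h11 : ((2 * (m + 1) : ℕ) : ℝ) * ((m : ℝ) + 1) = 2 * ((m : ℝ) + 1) ^ 2 := by
      push_cast
      ring
    rw [h11, one_mul]
    have h12 : 2 * ((m : ℝ) + 1) ^ 2 = 2 * (1 / ((m : ℝ) + 1) ^ 4) * ((m : ℝ) + 1) ^ 6 := by
      field_simp
    rw [h12]
    gcongr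
  have h13 : ((2 * (m + 1) : ℕ) : ℝ) * (1 / ((m : ℝ) + 1) ^ 2) = 2 / ((m : ℝ) + 1) := by
    push_cast
    field_simp
  have h14 : (3 : ℝ) / ((m : ℝ) + 1) = 1 / ((m : ℝ) + 1) + 2 / ((m : ℝ) + 1) := by ring
  rw [h13, h14]
  linarith

/-- **NOT gates do not matter.** -/
theorem mono_to_all (hREALM : P_REALM) (hSLICE : P_SLICE) (hCOPY : P_COPY) (hTHRF : P_THRF)
    (hTEST : P_TEST) (hCHEB : P_CHEB) (hAVG : P_AVG) (hDEC : P_DEC) (hBETA : P_BETA)
    (hPOLY : P_POLY) (hNUM : P_NUM) (α : ℕ → ℝ) (hα : ∀ m, 0 ≤ α m) (hanti : Antitone α)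
    (h : Generator α (fun _ C => NoNot C)) :
    Generator (fun m => 2 * α m + 3 / (m + 1)) (fun _ _ => True) := by
  obtain ⟨d, G, hd, hg, c, hc⟩ := h
  obtain ⟨G', e, hd', hg', hval⟩ := hPOLY d G 6 20 hd hg (by norm_num)
  obtain ⟨hN1, hN2, hN3⟩ := hNUM
  refine ⟨fun m => d (2 ^ (20 * lam m)) + 6 * lam m, G', hd', hg', 40 * c + 12, ?_⟩
  have hcM := tendsto_M.eventually hc
  filter_upwards [hcM, hN1, hN3 c] with m h1 h2 h3
  obtain ⟨h4, h5, h6⟩ := h1
  obtain ⟨h7, h8⟩ := h3 _ h4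
  refine ⟨h7, h8, fun C _ hC => ?_⟩
  have hm1 : m < 2 ^ lam m := Nat.lt_pow_succ_log_self (by norm_num) m
  have hBM : 2 ^ (6 * lam m) * m ≤ 2 ^ (20 * lam m) := by
    calc 2 ^ (6 * lam m) * m ≤ 2 ^ (6 * lam m) * 2 ^ lam m := Nat.mul_le_mul_left _ hm1.le
      _ = 2 ^ (7 * lam m) := by rw [← pow_add]; congr 1; ring
      _ ≤ _ := Nat.pow_le_pow_right (by norm_num) (by omega)
  have hmM : m ≤ 2 ^ (20 * lam m) :=
    hm1.le.trans (Nat.pow_le_pow_right (by norm_num) (by omega))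
  have h9 : α (2 ^ (20 * lam m)) ≤ α m := hanti hmM
  have key := step hREALM hSLICE hCOPY hTHRF hTEST hCHEB hAVG hDEC hBETA m _ _ _ _ hBM h2
    (G (2 ^ (20 * lam m))) (G' m) (e m) (hval m) (α (2 ^ (20 * lam m))) (hα _) (hN2 m) h6 C hC
  exact key.trans (by linarith)

/-- weaker requirements -/
lemma Generator.mono {α β : ℕ → ℝ} {P Q : ∀ m, Circuit m → Prop} (h : Generator α P)
    (hab : ∀ᶠ m in atTop, α m ≤ β m) (hPQ : ∀ m C, Q m C → P m C) : Generator β Q := by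
  obtain ⟨d, G, hd, hg, c, hc⟩ := h
  refine ⟨d, G, hd, hg, c, ?_⟩
  filter_upwards [hc, hab] with m h1 h2
  exact ⟨h1.1, h1.2.1, fun C hC hs => (h1.2.2 C (hPQ m C hC) hs).trans h2⟩

lemma ev_small {ε : ℝ} (hε : 0 < ε) : ∀ᶠ m : ℕ in atTop, (3 : ℝ) / (m + 1) ≤ ε := by
  filter_upwards [tendsto_natCast_atTop_atTop.eventually (eventually_ge_atTop (3 / ε))] with m hm
  rw [div_le_iff₀ (by positivity)]
  rw [div_le_iff₀ hε] at hm
  linarith

end Pool.Agent.W2helper22.MG
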