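import Pool.Agent.W2helper22.MG.HitDefs
import Pool.Agent.W2helper22.MG.All

/-! Project MG: hitting sets. -/

set_option autoImplicit false

namespace Pool.Agent.W2helper22.MG

open Finset Filter Pool.Agent.W2helper86.LG Pool.Agent.W2helper22.AL Pool.Agent

/-- one slice carries the fraction `1 / (m + 1)` of the accepted inputs -/
lemma exists_slice (m : ℕ) (c : (Fin m → Bool) → Bool) (g : ℕ → (Fin m → Bool) → Bool)
    (hg : ∀ k x, g k x = true ↔ (k + 1 ≤ wt x ∨ (wt x = k ∧ c x = true))) :
    ∃ k, prob c / (m + 1) ≤ prob (g k) - prob (fun x : Fin m → Bool => decide (k + 1 ≤ wt x)) := by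
  classical
  by_contra hcon
  push Not at hcon
  have h1 : ∀ k, ((univ.filter fun x => g k x = true).card : ℝ) =
      ((univ.filter fun x : Fin m → Bool => decide (k + 1 ≤ wt x) = true).card : ℝ) +
        ((univ.filter fun x : Fin m → Bool => c x = true).filter (fun x => wt x = k)).card := by
    intro k
    have h2 : (univ.filter fun x => g k x = true) =
        (univ.filter fun x : Fin m → Bool => decide (k + 1 ≤ wt x) = true) ∪
        ((univ.filter fun x : Fin m → Bool => c x = true).filter (fun x => wt x = k)) := by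
      ext x
      simp only [Finset.mem_filter, Finset.mem_univ, true_and, Finset.mem_union, decide_eq_true_eq]
      rw [hg]
      tauto
    rw [h2, Finset.card_union_of_disjoint, Nat.cast_add]
    rw [Finset.disjoint_left]
    intro x hx hx'
    simp only [Finset.mem_filter, Finset.mem_univ, true_and, decide_eq_true_eq] at hx hx'
    omega
  have h3 : ((univ.filter fun x : Fin m → Bool => c x = true).card : ℝ) =
      ∑ k ∈ range (m + 1),
        (((univ.filter fun x : Fin m → Bool => c x = true).filter (fun x => wt x = k)).card : ℝ) := by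
    rw [← Nat.cast_sum]
    congr 1
    apply Finset.card_eq_sum_card_fiberwise
    intro x _
    rw [Finset.mem_coe, Finset.mem_range]
    have : wt x ≤ m := by
      unfold wt
      exact (Finset.card_le_univ _).trans (by simp)
    omega
  have hN : (0 : ℝ) < Fintype.card (Fin m → Bool) := by exact_mod_cast Fintype.card_pos
  have h4 : prob c = ∑ k ∈ range (m + 1),
      (prob (g k) - prob (fun x : Fin m → Bool => decide (k + 1 ≤ wt x))) := by
    unfold prob
    rw [h3, Finset.sum_div]
    refine Finset.sum_congr rfl fun k _ => ?_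
    rw [h1 k]
    ring
  have h5 : ∑ k ∈ range (m + 1),
      (prob (g k) - prob (fun x : Fin m → Bool => decide (k + 1 ≤ wt x))) <
      ∑ k ∈ range (m + 1), prob c / (m + 1) :=
    Finset.sum_lt_sum_of_nonempty (by simp) fun k _ => hcon k
  rw [← h4] at h5
  simp only [Finset.sum_const, Finset.card_range, nsmul_eq_mul] at h5
  have h6 : ((m + 1 : ℕ) : ℝ) * (prob c / (m + 1)) = prob c := by
    push_cast
    field_simp
  linarith

lemma prob_or {S : Type} [Fintype S] (p q r : S → Bool)
    (h : ∀ s, r s = false → p s = true ∨ q s = true) (hS : 0 < Fintype.card S) :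
    1 ≤ prob r + prob p + prob q := by
  classical
  have hN : (0 : ℝ) < Fintype.card S := by exact_mod_cast hS
  have h1 : (univ : Finset S).card ≤ (univ.filter fun s => r s = true).card +
      (univ.filter fun s => p s = true).card + (univ.filter fun s => q s = true).card := by
    have h2 : (univ : Finset S) ⊆ (univ.filter fun s => r s = true) ∪
        (univ.filter fun s => p s = true) ∪ (univ.filter fun s => q s = true) := by
      intro s _
      simp only [Finset.mem_union, Finset.mem_filter, Finset.mem_univ, true_and]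
      cases hr : r s
      · rcases h s hr with h3 | h3
        · exact Or.inl (Or.inr h3)
        · exact Or.inr h3
      · exact Or.inl (Or.inl rfl)
    calc (univ : Finset S).card ≤ _ := Finset.card_le_card h2
      _ ≤ _ := (Finset.card_union_le _ _).trans (Nat.add_le_add_right (Finset.card_union_le _ _) _)
  unfold prob
  rw [← add_div, ← add_div, le_div_iff₀ hN, one_mul]
  rw [Finset.card_univ] at h1
  exact_mod_cast h1

/-- **Blocks of a hitting set for circuits with one NOT gate hit all circuits.** -/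
theorem hit_core (hAN : P_ANDNOT)
    (S : Type) [Fintype S] (m B M : ℕ) (hBM : B * m ≤ M) (G : S → Fin M → Bool)
    (ρ : ℝ) (hB6 : 4 * (m + 1) ^ 4 ≤ (1 - ρ) * B) (hB : 0 < B)
    (hsize : 2 * (1 * (B * (2 * m + 20 * (m + 2) ^ 3) + (2 * (B + 2) + 2) * (B + 1) + 2) + 2) + 1 ≤ M)
    (hG : ∀ C : Circuit M, OneNot C → C.size ≤ M → ρ ≤ prob C.eval → ∃ s, C.eval (G s) = true)
    (C : Circuit m) (hC : C.size ≤ m) (hp : 1 / ((m : ℝ) + 1) ≤ prob C.eval) :
    ∃ (s : S) (i : Fin B), C.eval (fun j => G s (blk m B M hBM i j)) = true := by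
  classical
  by_contra hcon
  push Not at hcon
  choose g hg1 hg2 using fun k => W2helper85.MG.slice m k C
  obtain ⟨k, hk⟩ := exists_slice m C.eval g hg2
  set T : (Fin m → Bool) → Bool := fun x => decide (k + 1 ≤ wt x) with hT
  set δ : ℝ := 1 / (2 * ((m : ℝ) + 1) ^ 2) with hδ
  have hm0 : (0 : ℝ) < (m : ℝ) + 1 := by positivity
  have hδ0 : 0 < δ := by positivity
  have hgap : 2 * δ ≤ prob (g k) - prob T := by
    refine le_trans ?_ hk
    have e : 2 * δ = (1 / ((m : ℝ) + 1)) / (m + 1) := by
      rw [hδ]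
      field_simp
    rw [e]
    gcongr
  have hB0 : (0 : ℝ) < B := by exact_mod_cast hB
  set θ : ℕ := ⌈(prob T + δ) * B⌉₊ with hθ
  have hMoG : ∀ j : Fin 1, Mo (2 * m + 20 * (m + 2) ^ 3) {(fun _ => g k) j} := fun _ =>
    (hg1 k).mono (by omega) (fun _ => le_rfl) (fun q hq => ⟨q.2, le_rfl, hq⟩)
  have hMoT : ∀ j : Fin 1, Mo (2 * m + 20 * (m + 2) ^ 3) {(fun _ => T) j} := fun _ =>
    (mo_thr W2helper85.MG.slice m k).mono (by omega) (fun _ => le_rfl)
      (fun q hq => ⟨q.2, le_rfl, hq⟩)
  obtain ⟨⟨CA, a1, a2, a3⟩, -⟩ := W2helper98.MG.test W2helper92.MG.realm W2helper60.MG.copy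
    W2helper63.MG.thrf m B M 1 (2 * m + 20 * (m + 2) ^ 3) (blk m B M hBM) (fun _ => g k)
    (fun _ => θ) hMoG
  obtain ⟨⟨CB, b1, b2, b3⟩, -⟩ := W2helper98.MG.test W2helper92.MG.realm W2helper60.MG.copy
    W2helper63.MG.thrf m B M 1 (2 * m + 20 * (m + 2) ^ 3) (blk m B M hBM) (fun _ => T)
    (fun _ => θ) hMoT
  obtain ⟨D, d1, d2, d3⟩ := hAN M CA CB a1 b1
  have a4 : ∀ x, CA.eval x = true ↔ θ ≤ cnt (blk m B M hBM) (g k) x := fun x => by
    rw [a3]
    exact ⟨fun ⟨_, h⟩ => h, fun h => ⟨0, h⟩⟩
  have b4 : ∀ x, CB.eval x = true ↔ θ ≤ cnt (blk m B M hBM) T x := fun x => by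
    rw [b3]
    exact ⟨fun ⟨_, h⟩ => h, fun h => ⟨0, h⟩⟩
  have hcheb := fun f => W2helper22.MG.Cheb.cheb m B M (blk m B M hBM) f δ (blk_inj m B M hBM) hδ0 hB
  have hlow : ρ ≤ prob D.eval := by
    have h1 := prob_or
      (fun x : Fin M → Bool => decide (δ * B ≤ |(cnt (blk m B M hBM) (g k) x : ℝ) - prob (g k) * B|))
      (fun x : Fin M → Bool => decide (δ * B ≤ |(cnt (blk m B M hBM) T x : ℝ) - prob T * B|))
      D.eval (fun x hx => by
        rw [d3] at hx
        by_contra hc
        push Not at hc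
        obtain ⟨hc1, hc2⟩ := hc
        simp only [ne_eq, decide_eq_true_eq, not_le] at hc1 hc2
        have h2 : CA.eval x = true := by
          rw [a4, hθ, Nat.ceil_le]
          have := (abs_lt.1 hc1).1
          nlinarith
        have h3 : CB.eval x = true := by
          cases h4 : CB.eval x
          · rw [h2, h4] at hx
            exact absurd hx (by simp)
          · rfl
        rw [b4, hθ, Nat.ceil_le] at h3
        have := (abs_lt.1 hc2).2
        nlinarith) Fintype.card_pos
    have h2 := hcheb (g k)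
    have h3 := hcheb T
    have h4 : 1 / (4 * δ ^ 2 * B) + 1 / (4 * δ ^ 2 * B) ≤ 1 - ρ := by
      have e1 : 4 * δ ^ 2 = 1 / ((m : ℝ) + 1) ^ 4 := by
        rw [hδ]
        field_simp
        norm_num
      rw [e1]
      have e2 : (1 : ℝ) / (1 / ((m : ℝ) + 1) ^ 4 * B) = ((m : ℝ) + 1) ^ 4 / B := by
        field_simp
      rw [e2, ← add_div, div_le_iff₀ hB0]
      have : (0 : ℝ) ≤ ((m : ℝ) + 1) ^ 4 := by positivity
      linarith
    linarith
  obtain ⟨s, hs⟩ := hG D d1 (by omega) hlow
  rw [d3, Bool.and_eq_true, Bool.not_eq_true'] at hs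
  have h5 := (a4 _).1 hs.1
  have h6 : cnt (blk m B M hBM) (g k) (G s) = cnt (blk m B M hBM) T (G s) := by
    unfold cnt
    congr 1
    ext i
    simp only [Finset.mem_filter, Finset.mem_univ, true_and]
    rw [hg2, hT]
    have h7 := hcon s i
    constructor
    · rintro (h8 | ⟨_, h8⟩)
      · exact decide_eq_true h8
      · exact absurd h8 h7
    · intro h8
      exact Or.inl (of_decide_eq_true h8)
  rw [h6] at h5
  rw [(b4 _).2 h5] at hs
  exact absurd hs.2 (by simp)

end Pool.Agent.W2helper22.MG
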