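import Pool.Agent.W2helper22.MG.Fin

/-! Project MG, hitting sets: definitions. -/

set_option autoImplicit false

namespace Pool.Agent.W2helper22.MG

open Finset Filter Pool.Agent.W2helper86.LG

/-- at most one line of the circuit is a NOT gate -/
def OneNot {m : ℕ} (C : Circuit m) : Prop :=
  ∀ i < C.len, ∀ j < C.len, (∃ a, C.gate i = Gate.not a) → (∃ a, C.gate j = Gate.not a) → i = j

/-- PIECE ANDNOT: `C₁ ∧ ¬ C₂` -/
def P_ANDNOT : Prop := ∀ (m : ℕ) (C₁ C₂ : Circuit m), NoNot C₁ → NoNot C₂ →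
  ∃ C : Circuit m, OneNot C ∧ C.size ≤ C₁.size + C₂.size + 1 ∧
    ∀ x, C.eval x = (C₁.eval x && !(C₂.eval x))

/-- Hitting set generators: as `Generator`, with the requirement that every circuit with the property
`P`, with at most `m` AND and OR gates, which accepts at least the fraction `ρ m` of all inputs, accepts
some output of the generator. -/
def Hitting (ρ : ℕ → ℝ) (P : ∀ m, Circuit m → Prop) : Prop :=
  ∃ (d : ℕ → ℕ) (G : (m : ℕ) → (Fin (d m) → Bool) → (Fin m → Bool)),
    (∃ f : List Bool → List Bool, Pool.Agent.H38.NP.PolyTime f ∧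
      ∀ m, f (List.replicate m true) = List.replicate (d m) true) ∧
    (∃ g : List Bool → List Bool, Pool.Agent.H38.NP.PolyTime g ∧ ∀ (m : ℕ) (s : Fin (d m) → Bool),
      g (Pool.Agent.H38.NP.pair (List.replicate m true) (List.ofFn s)) = List.ofFn (G m s)) ∧
    ∃ c : ℕ, ∀ᶠ m : ℕ in atTop, d m ≤ c * Nat.log 2 m ∧ d m < m ∧
      ∀ C : Circuit m, P m C → C.size ≤ m → ρ m ≤ prob C.eval → ∃ s, C.eval (G m s) = true

end Pool.Agent.W2helper22.MG
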