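import Pool.Agent.W2helper22.MG.Hit
import Pool.Agent.W2helper14.MG.ANDNOT

/-! Project MG: hitting sets, final statements. -/

set_option autoImplicit false

namespace Pool.Agent.W2helper22.MG

open Finset Filter Pool.Agent.W2helper86.LG Pool.Agent.W2helper22.AL Pool.Agent

theorem hit_step (hAN : P_ANDNOT) (m B M D a : ℕ) (hm : 1 ≤ m) (ε : ℝ) (hε : 0 < ε)
    (hb : 4 / ε ≤ (m : ℝ)) (hBM : B * m ≤ M)
    (hsize : 2 * (m + 1) * (B * (2 * m + 20 * (m + 2) ^ 3) + (2 * (B + 2) + 2) * (B + 1) + 2) + 2 ≤ M)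
    (G : (Fin D → Bool) → Fin M → Bool) (G' : (Fin (D + a) → Bool) → Fin m → Bool)
    (e : (Fin a → Bool) ≃ Fin B)
    (hval : ∀ (s : Fin D → Bool) (u : Fin a → Bool) (j : Fin m) (h : (e u : ℕ) * m + j < M),
      G' (Fin.append s u) j = G s ⟨(e u : ℕ) * m + j, h⟩)
    (hB6 : (m + 1) ^ 6 ≤ B)
    (hG : ∀ C : Circuit M, OneNot C → C.size ≤ M → 1 - ε ≤ prob C.eval → ∃ s, C.eval (G s) = true)
    (C : Circuit m) (hC : C.size ≤ m) (hp : 1 / ((m : ℝ) + 1) ≤ prob C.eval) :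
    ∃ s, C.eval (G' s) = true := by
  have hB0 : 0 < B := lt_of_lt_of_le (by positivity) hB6
  obtain ⟨s, i, hsi⟩ := hit_core hAN (Fin D → Bool) m B M hBM G (1 - ε) (by
      have hB6' : ((m : ℝ) + 1) ^ 6 ≤ (B : ℝ) := by exact_mod_cast hB6
      have h9 : 4 ≤ ε * ((m : ℝ) + 1) ^ 2 := by
        rw [div_le_iff₀ hε] at hb
        have : (0 : ℝ) ≤ m := Nat.cast_nonneg _
        nlinarith
      calc 4 * ((m : ℝ) + 1) ^ 4 ≤ (ε * ((m : ℝ) + 1) ^ 2) * ((m : ℝ) + 1) ^ 4 := by gcongr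
        _ = ε * ((m : ℝ) + 1) ^ 6 := by ring
        _ ≤ ε * (B : ℝ) := by gcongr
        _ = _ := by ring) hB0 (by
      refine le_trans ?_ hsize
      obtain ⟨X, hX⟩ : ∃ X, X = B * (2 * m + 20 * (m + 2) ^ 3) + (2 * (B + 2) + 2) * (B + 1) + 2 :=
        ⟨_, rfl⟩
      rw [← hX]
      have h10 : 3 ≤ X := by
        have : 1 ≤ (2 * (B + 2) + 2) * (B + 1) := Nat.mul_pos (by omega) (by omega)
        omega
      have h11 : 4 * X ≤ 2 * (m + 1) * X := Nat.mul_le_mul_right _ (by omega)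
      omega) hG C hC hp
  refine ⟨Fin.append s (e.symm i), ?_⟩
  rw [← hsi]
  congr 1
  funext j
  have h9 := hval s (e.symm i) j (by
    rw [Equiv.apply_symm_apply]
    exact (blk m B M hBM i j).2)
  simp only [Equiv.apply_symm_apply] at h9
  exact h9

theorem hit_main (hAN : P_ANDNOT) (ε : ℝ) (hε : 0 < ε) (h : Hitting (fun _ => 1 - ε) (fun _ C => OneNot C)) :
    Hitting (fun m => 1 / (m + 1)) (fun _ _ => True) := by
  obtain ⟨d, G, hd, hg, c, hc⟩ := h
  obtain ⟨G', e, hd', hg', hval⟩ := W2helper15.MG.poly d G 6 20 hd hg (by norm_num)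
  obtain ⟨hN1, hN2, hN3⟩ := W2helper52.MG.num
  refine ⟨fun m => d (2 ^ (20 * lam m)) + 6 * lam m, G', hd', hg', 40 * c + 12, ?_⟩
  have hcM := tendsto_M.eventually hc
  have hbig : ∀ᶠ m : ℕ in atTop, 4 / ε ≤ (m : ℝ) :=
    tendsto_natCast_atTop_atTop.eventually (eventually_ge_atTop _)
  filter_upwards [hcM, hN1, hN3 c, hbig, eventually_ge_atTop 1] with m h1 h2 h3 hb hm
  obtain ⟨h4, h5, h6⟩ := h1
  obtain ⟨h7, h8⟩ := h3 _ h4
  refine ⟨h7, h8, fun C _ hC hp => ?_⟩
  have hm1 : m < 2 ^ lam m := Nat.lt_pow_succ_log_self (by norm_num) m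
  have hBM : 2 ^ (6 * lam m) * m ≤ 2 ^ (20 * lam m) := by
    calc 2 ^ (6 * lam m) * m ≤ 2 ^ (6 * lam m) * 2 ^ lam m := Nat.mul_le_mul_left _ hm1.le
      _ = 2 ^ (7 * lam m) := by rw [← pow_add]; congr 1; ring
      _ ≤ _ := Nat.pow_le_pow_right (by norm_num) (by omega)
  exact hit_step hAN m _ _ _ _ hm ε hε hb hBM h2 (G (2 ^ (20 * lam m))) (G' m) (e m) (hval m)
    (hN2 m) h6 C hC hp

/-- a circuit without NOT gates is monotone -/
lemma noNot_mono {m : ℕ} {C : Circuit m} (hC : NoNot C) (x : Fin m → Bool) :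
    ∀ i < C.len, C.val x i = true → C.val (fun _ => true) i = true := by
  intro i
  induction i using Nat.strong_induction_on with
  | _ i ih =>
    intro hi hx
    have hb := C.below i hi
    rw [C.val_eq _ hi] at hx ⊢
    cases hg : C.gate i with
    | const b => rw [hg] at hx; exact hx
    | inp j => rfl
    | not a => exact absurd hg (hC i hi a)
    | and a b =>
      rw [hg] at hx hb
      obtain ⟨h1, h2⟩ := hb
      simp only [Gate.eval, Bool.and_eq_true] at hx ⊢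
      exact ⟨ih a h1 (h1.trans hi) hx.1, ih b h2 (h2.trans hi) hx.2⟩
    | or a b =>
      rw [hg] at hx hb
      obtain ⟨h1, h2⟩ := hb
      simp only [Gate.eval, Bool.or_eq_true] at hx ⊢
      exact hx.imp (ih a h1 (h1.trans hi)) (ih b h2 (h2.trans hi))

open Pool.Agent.H38.NP in
/-- **Without NOT gates hitting is trivial.** -/
theorem hit_trivial : Hitting (fun m => 1 / (m + 1)) (fun _ C => NoNot C) := by
  refine ⟨fun _ => 0, fun m _ _ => true, ?_, ?_, 0, ?_⟩
  · have h : PT fun x : Bits => raw (sz x - sz x) := by fun_prop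
    refine ⟨_, PT.polyTime h, fun m => ?_⟩
    simp [raw, sz]
  · have h : PT fun x : Bits => raw (sz x.fst) := PT.raw (PT.sz PT.bfst)
    refine ⟨_, PT.polyTime h, fun m s => ?_⟩
    simp [Bits.fst, raw, sz]
  · filter_upwards [eventually_ge_atTop 1] with m hm
    refine ⟨Nat.zero_le _, hm, fun C hC _ hp => ⟨fun i => i.elim0, ?_⟩⟩
    have h1 : 0 < prob C.eval := lt_of_lt_of_le (by positivity) hp
    have h2 : ∃ x, C.eval x = true := by
      by_contra hcon
      push Not at hcon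
      have : prob C.eval = 0 := by
        unfold prob
        rw [Finset.filter_false_of_mem (fun x _ => hcon x)]
        simp
      linarith
    obtain ⟨x, hx⟩ := h2
    exact noNot_mono hC x C.out C.out_lt hx

theorem final_hit (ε : ℝ) (hε : 0 < ε) (hε1 : ε < 1) :
    Hitting (fun _ => 1 - ε) (fun _ C => OneNot C) ↔
      Hitting (fun m => 1 / (m + 1)) (fun _ _ => True) := by
  constructor
  · exact hit_main (fun m C1 C2 h1 h2 => W2helper14.MG.andnot m C1 C2 h1 h2) ε hε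
  · rintro ⟨d, G, hd, hg, c, hc⟩
    refine ⟨d, G, hd, hg, c, ?_⟩
    filter_upwards [hc, ev_small (show 0 < 1 - ε by linarith)] with m h1 h2
    refine ⟨h1.1, h1.2.1, fun C _ hC hp => h1.2.2 C trivial hC ?_⟩
    refine le_trans ?_ (h2.trans hp)
    have : (0 : ℝ) < (m : ℝ) + 1 := by positivity
    gcongr
    norm_num

end Pool.Agent.W2helper22.MG
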