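import Pool.Agent.W2helper86.LG.Main
import Pool.Agent.W2helper22.AL.Up

/-!
# Project MG: it is enough to fool monotone circuits (statements of the pieces)

Plan. `C` a circuit on `b` bits. For each `k` the function `g_k = [wt > k] ∨ ([wt ≥ k] ∧ C)` is
monotone and has a monotone circuit of size `2 |C| + O(b ^ 3)` (Berkowitz), and
`C = Σ_k (g_k - [wt > k])` as `0/1`-valued functions. Let `G : S → {0,1}^M` fool monotone circuits with
advantage `α`. Cut the first `B b` output bits into `B` blocks; `G' (s, i)` is block `i` of `G s`. For the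
`2 (b + 1)` monotone functions `F = g_k, [wt > k]` with mean `p_F` the tests
`U = (∃ F, #{i | F (x_i)} ≥ (p_F + δ) B)` and `L = (∀ F, #{i | F (x_i)} ≥ (p_F - δ) B)` are monotone with
small circuits, and `U = 0`, `L = 1` with high probability for a uniform `x` (Chebyshev). So they hold for
`G s` for all but `2 α + o(1)` of the seeds, and for these seeds the average of `C` over the blocks
of `G s` is `E C ± 2 (b + 1) δ`. So `G'` fools `C` with advantage `2 α + o(1)`.

`Av 0 s (fun _ => 0) F` (file `W2helper22/AL/Up.lean`): the functions of `F` are computed by `s` gates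
without NOT gates (all levels are `0`, so there is no NOT gate).
-/

set_option autoImplicit false

namespace Pool.Agent.W2helper22.MG

open Finset Filter Pool.Agent.W2helper86.LG Pool.Agent.W2helper22.AL

/-- the circuit has no NOT gates -/
def NoNot {m : ℕ} (C : Circuit m) : Prop := ∀ i < C.len, ∀ a, C.gate i ≠ Gate.not a

/-- the number of true bits -/
def wt {m : ℕ} (x : Fin m → Bool) : ℕ := (univ.filter (fun i => x i = true)).card

/-- the functions of `F` have monotone programs with `s` gates in all -/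
def Mo {I : Type} (s : ℕ) (F : Set ((I → Bool) → Bool)) : Prop :=
  Av 0 s (fun _ => 0) {q : ((I → Bool) → Bool) × ℕ | q.1 ∈ F ∧ q.2 = 0}

/-- PIECE REALM. A monotone program gives a circuit without NOT gates.
Proof: `W2helper85.AL.real` (h = 0) gives a circuit of `W2helper76.RW` whose NOT gates would have a
level `≥ 1`, so it has none; translate it line by line (compare `W2helper22/CW/Conv.lean`). -/
def P_REALM : Prop := ∀ (m s : ℕ) (f : (Fin m → Bool) → Bool), Mo s {f} →
  ∃ C : Circuit m, NoNot C ∧ C.size ≤ s ∧ ∀ x, C.eval x = f x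

/-- PIECE SLICE (KEY). For a circuit `C` (its NOT gates are free!) and `k`, the function `g_k` is monotone
with a small program. Proof: dual rail as in `W2helper22/CW/Dual.lean` (adapt it to the circuits of
`W2helper86.LG`: for each line the function and its negation, on the set `X = {x | wt x = k}`; AND and OR
lines cost `2`, the other lines nothing; the two constants cost `2`), where the negated input `p` is the
threshold `k` of the other inputs (`W2helper68.AL.thr_ok` for the lists `E.erase p`, `thr_many` in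
`AL/Asm.lean`; on `X`: `x p = false ↔ k ≤ number of true inputs other than p`). Then `g_k` is
`T_{k+1} ∨ (T_k ∧ f)`, thresholds of all inputs from `thr_ok`. -/
def P_SLICE : Prop := ∀ (m k : ℕ) (C : Circuit m), ∃ g : (Fin m → Bool) → Bool,
  Mo (2 * C.size + 20 * (m + 2) ^ 3) {g} ∧
    ∀ x, g x = true ↔ (k + 1 ≤ wt x ∨ (wt x = k ∧ C.eval x = true))

/-- PIECE COPY. Substitution: a program on the inputs `I` is carried over to the inputs `J` along
`π : I → J` and appended to a given program. Proof: induction on `Prog` (`W2helper22/AL/Up.lean`). -/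
def P_COPY : Prop := ∀ (I J : Type) (s s' : ℕ) (F : Set ((I → Bool) → Bool))
  (F' : Set ((J → Bool) → Bool)) (π : I → J), Mo s F → Mo s' F' →
  Mo (s + s') (F' ∪ {f | ∃ g ∈ F, f = fun x => g (fun i => x (π i))})

/-- PIECE THRF. Thresholds of a list of functions. Proof: as `W2helper68.AL.thr_ok` (file
`W2helper68/AL/THR.lean`), where the inputs `x p` are replaced by the functions of the list. -/
def P_THRF : Prop := ∀ (I : Type) (s : ℕ) (F : Set ((I → Bool) → Bool))
  (fs : List ((I → Bool) → Bool)), (∀ f ∈ fs, f ∈ F) → Mo s F →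
  Mo (s + (2 * (fs.length + 2) + 2) * (fs.length + 1))
    (F ∪ {f | ∃ k : ℕ, f = fun x => decide (k ≤ fs.countP (fun f => f x))})

/-- the number of blocks on which `f` is true -/
def cnt {b B M : ℕ} (π : Fin B → Fin b → Fin M) (f : (Fin b → Bool) → Bool) (x : Fin M → Bool) : ℕ :=
  (univ.filter (fun i : Fin B => f (fun j => x (π i j)) = true)).card

/-- PIECE TEST. The two tests have small circuits without NOT gates. Proof: for each `j < K` the `B`
copies of `F j` (P_COPY) and their thresholds (P_THRF with the list of the copies), then OR / AND of the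
`K` functions, P_REALM. -/
def P_TEST : Prop := P_REALM → P_COPY → P_THRF → ∀ (b B M K S : ℕ) (π : Fin B → Fin b → Fin M)
  (F : Fin K → (Fin b → Bool) → Bool) (θ : Fin K → ℕ), (∀ j, Mo S {F j}) →
  (∃ C : Circuit M, NoNot C ∧ C.size ≤ K * (B * S + (2 * (B + 2) + 2) * (B + 1) + 2) + 2 ∧
    ∀ x, C.eval x = true ↔ ∃ j, θ j ≤ cnt π (F j) x) ∧
  ∃ C : Circuit M, NoNot C ∧ C.size ≤ K * (B * S + (2 * (B + 2) + 2) * (B + 1) + 2) + 2 ∧
    ∀ x, C.eval x = true ↔ ∀ j, θ j ≤ cnt π (F j) x

/-- PIECE CHEB. Chebyshev's inequality for the blocks of a uniform string. Proof: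
`E (cnt - p B)^2 = Σ_{i, i'} E (F (x_i) - p) (F (x_i') - p)`; for `i ≠ i'` the two blocks are independent
(disjoint sets of coordinates), the term is `0`; for `i = i'` it is `p (1 - p) ≤ 1 / 4`. -/
def P_CHEB : Prop := ∀ (b B M : ℕ) (π : Fin B → Fin b → Fin M) (f : (Fin b → Bool) → Bool) (δ : ℝ),
  (∀ i j i' j', π i j = π i' j' → i = i' ∧ j = j') → 0 < δ → 0 < B →
  prob (fun x : Fin M → Bool => decide (δ * B ≤ |(cnt π f x : ℝ) - prob f * B|)) ≤ 1 / (4 * δ ^ 2 * B)

/-- PIECE AVG. The final averaging argument. `F j`: the functions, `sgn j = ± 1`, `c y = Σ_j sgn j F j y`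
for all `y`. If for all seeds but a fraction `β` the counts of all `F j` are within `δ B` of their means,
then the blocks fool `c` with advantage `β + K δ`. Proof: for a good seed
`|#{i | c (block i)} - prob c * B| = |Σ_j sgn j (cnt (F j) - prob (F j) B)| ≤ K δ B`; for the other seeds
the left side is at most `B`. Average over the seeds. -/
def P_AVG : Prop := ∀ (S : Type) [Fintype S] [Nonempty S] (b B M K : ℕ)
  (π : Fin B → Fin b → Fin M) (G : S → Fin M → Bool) (F : Fin K → (Fin b → Bool) → Bool)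
  (sgn : Fin K → ℤ) (c : (Fin b → Bool) → Bool) (β δ : ℝ), 0 < B → 0 ≤ β → 0 ≤ δ →
  (∀ j, sgn j = 1 ∨ sgn j = -1) →
  (∀ y, (if c y = true then (1 : ℤ) else 0) = ∑ j, sgn j * (if F j y = true then 1 else 0)) →
  prob (fun s : S => decide (∃ j, δ * B < |(cnt π (F j) (G s) : ℝ) - prob (F j) * B|)) ≤ β →
  |prob (fun p : S × Fin B => c (fun j => G p.1 (π p.2 j))) - prob c| ≤ β + K * δ

/-- PIECE DEC. The decomposition `C = Σ_k (g_k - [wt > k])`, `k ≤ b` (the functions are numbered by
`Fin (2 (b + 1))`). Proof: only `k = wt y` contributes. -/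
def P_DEC : Prop := ∀ (b : ℕ) (c : (Fin b → Bool) → Bool) (g : ℕ → (Fin b → Bool) → Bool),
  (∀ k x, g k x = true ↔ (k + 1 ≤ wt x ∨ (wt x = k ∧ c x = true))) →
  ∃ (F : Fin (2 * (b + 1)) → (Fin b → Bool) → Bool) (sgn : Fin (2 * (b + 1)) → ℤ),
    (∀ j, sgn j = 1 ∨ sgn j = -1) ∧
    (∀ j, (∃ k, F j = g k) ∨ ∃ k, F j = fun x => decide (k + 1 ≤ wt x)) ∧
    ∀ y, (if c y = true then (1 : ℤ) else 0) = ∑ j, sgn j * (if F j y = true then 1 else 0)

/-- Generators as in the problem (all circuits or circuits with the property `P`), advantage `α`. -/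
def LogGen (α : ℝ) (P : ∀ m, Circuit m → Prop) : Prop :=
  ∃ (d : ℕ → ℕ) (G : (m : ℕ) → (Fin (d m) → Bool) → (Fin m → Bool)),
    (∃ f : List Bool → List Bool, Pool.Agent.H38.NP.PolyTime f ∧
      ∀ m, f (List.replicate m true) = List.replicate (d m) true) ∧
    (∃ g : List Bool → List Bool, Pool.Agent.H38.NP.PolyTime g ∧ ∀ (m : ℕ) (s : Fin (d m) → Bool),
      g (Pool.Agent.H38.NP.pair (List.replicate m true) (List.ofFn s)) = List.ofFn (G m s)) ∧
    ∃ c : ℕ, ∀ᶠ m : ℕ in atTop, d m ≤ c * Nat.log 2 m ∧ d m < m ∧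
      ∀ C : Circuit m, P m C → C.size ≤ m →
        |prob (fun s => C.eval (G m s)) - prob C.eval| ≤ α

/-- PIECE BETA. Few bad seeds. Proof: under the uniform distribution the first test is true and the
second is false each with probability at most `K / (4 δ ^ 2 B)` (P_CHEB and the union bound), so the
same is true for `G s` up to `α`; a bad seed makes the first test true or the second false
(`⌈y⌉₊ ≤ n ↔ y ≤ n`). -/
def P_BETA : Prop := P_CHEB → ∀ (S : Type) [Fintype S] [Nonempty S] (b B M K : ℕ)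
  (π : Fin B → Fin b → Fin M) (G : S → Fin M → Bool) (F : Fin K → (Fin b → Bool) → Bool) (α δ : ℝ),
  (∀ i j i' j', π i j = π i' j' → i = i' ∧ j = j') → 0 < δ → 0 < B →
  |prob (fun s : S => decide (∃ j, ⌈(prob (F j) + δ) * B⌉₊ ≤ cnt π (F j) (G s))) -
    prob (fun x : Fin M → Bool => decide (∃ j, ⌈(prob (F j) + δ) * B⌉₊ ≤ cnt π (F j) x))| ≤ α →
  |prob (fun s : S => decide (∀ j, ⌈(prob (F j) - δ) * B⌉₊ ≤ cnt π (F j) (G s))) -
    prob (fun x : Fin M → Bool => decide (∀ j, ⌈(prob (F j) - δ) * B⌉₊ ≤ cnt π (F j) x))| ≤ α →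
  prob (fun s : S => decide (∃ j, δ * B < |(cnt π (F j) (G s) : ℝ) - prob (F j) * B|)) ≤
    2 * α + K / (2 * δ ^ 2 * B)

/-- `m < 2 ^ lam m ≤ 2 m` -/
def lam (m : ℕ) : ℕ := Nat.log 2 m + 1

/-- PIECE POLY (KEY for uniformity). The new generator is computable in polynomial time: `G'_m (s, u)` is
block number `e u` (of length `m`) of `G_M (s)`, `M = 2 ^ (A λ)`, `B = 2 ^ (a λ)` blocks. Proof: the `PT`
framework (`H38/NP/Api.lean`, `fun_prop`; see `polyTime_gen`, `polyTime_seed`, `pt_log` in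
`W2helper86/LG/Comp.lean` for the pattern): on `(1^m, s)` compute `1^M`, the value of the last `a λ` bits of the
seed, apply the given `g` to `pair (1^M) (take ..)`, drop and take. -/
def P_POLY : Prop := ∀ (d : ℕ → ℕ) (G : (m : ℕ) → (Fin (d m) → Bool) → (Fin m → Bool)) (a A : ℕ),
  (∃ f : List Bool → List Bool, Pool.Agent.H38.NP.PolyTime f ∧
    ∀ m, f (List.replicate m true) = List.replicate (d m) true) →
  (∃ g : List Bool → List Bool, Pool.Agent.H38.NP.PolyTime g ∧ ∀ (m : ℕ) (s : Fin (d m) → Bool),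
    g (Pool.Agent.H38.NP.pair (List.replicate m true) (List.ofFn s)) = List.ofFn (G m s)) →
  a + 1 ≤ A →
  ∃ (G' : (m : ℕ) → (Fin (d (2 ^ (A * lam m)) + a * lam m) → Bool) → (Fin m → Bool))
    (e : ∀ m, (Fin (a * lam m) → Bool) ≃ Fin (2 ^ (a * lam m))),
    (∃ f : List Bool → List Bool, Pool.Agent.H38.NP.PolyTime f ∧ ∀ m,
      f (List.replicate m true) = List.replicate (d (2 ^ (A * lam m)) + a * lam m) true) ∧
    (∃ g : List Bool → List Bool, Pool.Agent.H38.NP.PolyTime g ∧
      ∀ (m : ℕ) (s : Fin (d (2 ^ (A * lam m)) + a * lam m) → Bool),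
      g (Pool.Agent.H38.NP.pair (List.replicate m true) (List.ofFn s)) = List.ofFn (G' m s)) ∧
    ∀ (m : ℕ) (s : Fin (d (2 ^ (A * lam m))) → Bool) (u : Fin (a * lam m) → Bool) (j : Fin m)
      (h : (e m u : ℕ) * m + j < 2 ^ (A * lam m)),
      G' m (Fin.append s u) j = G (2 ^ (A * lam m)) s ⟨(e m u : ℕ) * m + j, h⟩

/-- PIECE NUM. The parameters `a = 6`, `A = 20` (`2 ^ lam m ≥ m + 1`, `≤ 2 m`). -/
def P_NUM : Prop := (∀ᶠ m : ℕ in atTop,
    2 * (m + 1) * (2 ^ (6 * lam m) * (2 * m + 20 * (m + 2) ^ 3) +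
      (2 * (2 ^ (6 * lam m) + 2) + 2) * (2 ^ (6 * lam m) + 1) + 2) + 2 ≤ 2 ^ (20 * lam m)) ∧
  (∀ m : ℕ, (m + 1) ^ 6 ≤ 2 ^ (6 * lam m)) ∧
  ∀ c : ℕ, ∀ᶠ m : ℕ in atTop, ∀ D ≤ c * Nat.log 2 (2 ^ (20 * lam m)),
    D + 6 * lam m ≤ (40 * c + 12) * Nat.log 2 m ∧ D + 6 * lam m < m

end Pool.Agent.W2helper22.MG
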